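import Mathlib

/-! Cuts of a finite undirected multigraph: submodularity, relative connectivity, a family of few
sets containing all small connected cuts (important cuts), and the bounded number of terminals that
own a small connected cut through a fixed vertex. -/

namespace R550.FX

open Finset

set_option linter.unusedSectionVars false

variable {V E : Type} [Fintype V] [DecidableEq V] [Fintype E] [DecidableEq E]

/-- A finite undirected multigraph: the edge `e` joins `a e` and `b e` (in no particular order). -/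
structure MG (V E : Type) where
  a : E → V
  b : E → V

/-- The edge `e` has exactly one endpoint in `S`. -/
def Cr (G : MG V E) (S : Finset V) (e : E) : Prop := ¬ (G.a e ∈ S ↔ G.b e ∈ S)

instance (G : MG V E) (S : Finset V) (e : E) : Decidable (Cr G S e) := by
  unfold Cr; infer_instance

/-- The edges of `F` with exactly one endpoint in `S`. -/
def bd (G : MG V E) (F : Finset E) (S : Finset V) : Finset E := F.filter (fun e => Cr G S e)

theorem mem_bd {G : MG V E} {F : Finset E} {S : Finset V} {e : E} :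
    e ∈ bd G F S ↔ e ∈ F ∧ Cr G S e := by simp [bd]

theorem bd_mono {G : MG V E} {F F' : Finset E} (h : F ⊆ F') (S : Finset V) :
    bd G F S ⊆ bd G F' S := by
  intro e he; rw [mem_bd] at he ⊢; exact ⟨h he.1, he.2⟩

theorem submod (G : MG V E) (F : Finset E) (S T : Finset V) :
    (bd G F (S ∩ T)).card + (bd G F (S ∪ T)).card ≤ (bd G F S).card + (bd G F T).card := by
  unfold bd
  simp only [card_filter]
  rw [← sum_add_distrib, ← sum_add_distrib]
  apply sum_le_sum
  intro e _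
  unfold Cr
  by_cases h1 : G.a e ∈ S <;> by_cases h2 : G.a e ∈ T <;> by_cases h3 : G.b e ∈ S <;>
    by_cases h4 : G.b e ∈ T <;> simp [h1, h2, h3, h4]

/-- Connectivity of `S` relative to `X`: every proper part of `S` containing `X` is left by an edge
inside `S`. -/
def Conn (G : MG V E) (H : Finset E) (X S : Finset V) : Prop :=
  ∀ Q : Finset V, X ⊆ Q → Q ⊆ S → Q ≠ S →
    ∃ g ∈ H, (G.a g ∈ Q ∧ G.b g ∈ S ∧ G.b g ∉ Q) ∨ (G.b g ∈ Q ∧ G.a g ∈ S ∧ G.a g ∉ Q)

theorem conn_ext {G : MG V E} {H : Finset E} {X X' S : Finset V} (h : Conn G H X S)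
    (hX : X ⊆ X') (hS : X ⊆ S) : Conn G H X' (S ∪ X') := by
  intro Q h1 h2 h3
  have h4 : Q ∩ S ≠ S := by
    intro h4
    apply h3
    apply Subset.antisymm h2
    apply union_subset _ h1
    intro v hv
    rw [← h4] at hv
    exact (mem_inter.1 hv).1
  obtain ⟨g, hg, h5⟩ := h (Q ∩ S) (subset_inter (hX.trans h1) hS) inter_subset_right h4
  refine ⟨g, hg, ?_⟩
  rcases h5 with ⟨h5, h6, h7⟩ | ⟨h5, h6, h7⟩
  · left
    refine ⟨(mem_inter.1 h5).1, mem_union_left _ h6, fun h8 => h7 (mem_inter.2 ⟨h8, h6⟩)⟩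
  · right
    refine ⟨(mem_inter.1 h5).1, mem_union_left _ h6, fun h8 => h7 (mem_inter.2 ⟨h8, h6⟩)⟩

theorem conn_erase {G : MG V E} {H : Finset E} {X S : Finset V} (h : Conn G H X S) {e : E}
    (he : Cr G S e) : Conn G (H.erase e) X S := by
  intro Q h1 h2 h3
  obtain ⟨g, hg, h5⟩ := h Q h1 h2 h3
  refine ⟨g, mem_erase.2 ⟨?_, hg⟩, h5⟩
  rintro rfl
  apply he
  rcases h5 with ⟨h5, h6, h7⟩ | ⟨h5, h6, h7⟩
  · exact ⟨fun _ => h6, fun _ => h2 h5⟩
  · exact ⟨fun _ => h2 h5, fun _ => h6⟩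

theorem bd_erase {G : MG V E} {H : Finset E} {S : Finset V} {e : E} :
    bd G (H.erase e) S = (bd G H S).erase e := by
  ext f; simp [mem_bd, and_assoc]

/-- A set inside a set without boundary. -/
theorem conn_sub {G : MG V E} {H : Finset E} {X S M : Finset V} (h : Conn G H X S) (hXS : X ⊆ S)
    (hXM : X ⊆ M) (h0 : bd G H M = ∅) : S ⊆ M := by
  by_contra hn
  have h3 : M ∩ S ≠ S := by
    intro h3
    apply hn
    intro v hv
    rw [← h3] at hv
    exact (mem_inter.1 hv).1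
  obtain ⟨g, hg, h5⟩ := h (M ∩ S) (subset_inter hXM hXS) inter_subset_right h3
  have h6 : g ∈ bd G H M := by
    rw [mem_bd]
    refine ⟨hg, ?_⟩
    unfold Cr
    simp only [mem_inter, not_and] at h5
    tauto
  rw [h0] at h6
  exact absurd h6 (notMem_empty _)

theorem exists_best (P : Finset V → Prop) (h : ∃ S, P S) (d : Finset V → ℕ) :
    ∃ M, P M ∧ (∀ S, P S → d M ≤ d S) ∧ (∀ S, P S → d S = d M → S.card ≤ M.card) := by
  classical
  obtain ⟨S0, h0⟩ := h
  obtain ⟨M1, h1, h2⟩ := exists_min_image (univ.filter P) d ⟨S0, by simp [h0]⟩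
  obtain ⟨M, h3, h4⟩ := exists_max_image (univ.filter (fun S => P S ∧ d S = d M1))
    (fun S => S.card) ⟨M1, by simpa using h1⟩
  simp only [mem_filter, mem_univ, true_and] at h1 h2 h3 h4
  refine ⟨M, h3.1, fun S hS => ?_, fun S hS hd => h4 S ⟨hS, hd.trans h3.2⟩⟩
  rw [h3.2]
  exact h2 S hS

/-- Few sets contain all small connected cuts. -/
theorem important (G : MG V E) (R : Finset V) : ∀ (n : ℕ) (H : Finset E) (X : Finset V) (k l : ℕ),
    (∀ S, X ⊆ S → Disjoint S R → l ≤ (bd G H S).card) → 2 * k ≤ n + l →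
    ∃ I : Finset (Finset V), I.card ≤ 2 ^ n ∧ (∀ S ∈ I, Disjoint S R ∧ (bd G H S).card ≤ k) ∧
      ∀ S, X ⊆ S → Disjoint S R → (bd G H S).card ≤ k → Conn G H X S → ∃ S' ∈ I, S ⊆ S' := by
  intro n
  induction n using Nat.strong_induction_on with
  | _ n ih =>
  intro H X k l hl hk
  by_cases hex : ∃ S, X ⊆ S ∧ Disjoint S R ∧ (bd G H S).card ≤ k
  swap
  · refine ⟨∅, by simp, by simp, ?_⟩
    intro S h1 h2 h3
    exact absurd ⟨S, h1, h2, h3⟩ hex
  obtain ⟨S0, hS0, hS1, hS2⟩ := hex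
  obtain ⟨M, ⟨hM1, hM2⟩, hM3, hM4⟩ := exists_best (fun S => X ⊆ S ∧ Disjoint S R) ⟨S0, hS0, hS1⟩
    (fun S => (bd G H S).card)
  have hMk : (bd G H M).card ≤ k := (hM3 S0 ⟨hS0, hS1⟩).trans hS2
  by_cases hz : bd G H M = ∅
  · refine ⟨{M}, by simpa using Nat.one_le_two_pow, ?_, ?_⟩
    · intro S hS
      rw [mem_singleton] at hS
      subst hS
      exact ⟨hM2, hMk⟩
    · intro S h1 h2 h3 h4
      exact ⟨M, by simp, conn_sub h4 h1 hM1 hz⟩
  obtain ⟨e, he⟩ := nonempty_iff_ne_empty.2 hz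
  have hlM := hl M hM1 hM2
  have hpos : 0 < (bd G H M).card := card_pos.2 ⟨e, he⟩
  -- the endpoint of `e` outside `M`
  obtain ⟨y, hyM, hyS⟩ : ∃ y, y ∉ M ∧ ∀ S', M ⊆ S' → y ∉ S' → Cr G S' e := by
    have h1 := (mem_bd.1 he).2
    unfold Cr at h1
    by_cases h2 : G.a e ∈ M
    · have h3 : G.b e ∉ M := fun h3 => h1 ⟨fun _ => h3, fun _ => h2⟩
      exact ⟨G.b e, h3, fun S' hS' hb hc => hb (hc.1 (hS' h2))⟩
    · have h3 : G.b e ∈ M := by
        by_contra h3
        exact h1 ⟨fun h => absurd h h2, fun h => absurd h h3⟩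
      exact ⟨G.a e, h2, fun S' hS' ha hc => ha (hc.2 (hS' h3))⟩
  obtain ⟨m, rfl⟩ : ∃ m, n = m + 1 := ⟨n - 1, by omega⟩
  obtain ⟨I1, c1, p1, q1⟩ := ih m (by omega) (H.erase e) M (k - 1) ((bd G H M).card - 1) (by
    intro S h1 h2
    rw [bd_erase]
    have h3 := hM3 S ⟨hM1.trans h1, h2⟩
    have h4 := pred_card_le_card_erase (s := bd G H S) (a := e)
    omega) (by omega)
  obtain ⟨I2, c2, p2, q2⟩ := ih m (by omega) H (insert y M) k ((bd G H M).card + 1) (by
    intro S h1 h2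
    have h3 := hM3 S ⟨(hM1.trans (subset_insert _ _)).trans h1, h2⟩
    by_contra h4
    have h5 := hM4 S ⟨(hM1.trans (subset_insert _ _)).trans h1, h2⟩ (by omega)
    have h6 : M ⊂ S := by
      refine ⟨(subset_insert _ _).trans h1, fun h7 => hyM (h7 (h1 (mem_insert_self _ _)))⟩
    exact absurd (card_lt_card h6) (by omega)) (by omega)
  refine ⟨I1 ∪ I2, ?_, ?_, ?_⟩
  · have := card_union_le I1 I2
    rw [pow_succ]
    omega
  · intro S hS
    rcases mem_union.1 hS with hS | hS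
    · obtain ⟨h1, h2⟩ := p1 S hS
      refine ⟨h1, ?_⟩
      rw [bd_erase] at h2
      have h4 := pred_card_le_card_erase (s := bd G H S) (a := e)
      omega
    · exact p2 S hS
  · intro S h1 h2 h3 h4
    have h5 : (bd G H (S ∪ M)).card ≤ k := by
      have h6 := submod G H S M
      have h7 := hM3 (S ∩ M) ⟨subset_inter h1 hM1, disjoint_of_subset_left inter_subset_left h2⟩
      omega
    have h6 : Disjoint (S ∪ M) R := disjoint_union_left.2 ⟨h2, hM2⟩
    have h7 : Conn G H M (S ∪ M) := conn_ext h4 hM1 h1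
    by_cases hy : y ∈ S ∪ M
    · have h8 : insert y M ⊆ S ∪ M := insert_subset hy subset_union_right
      have h9 : Conn G H (insert y M) (S ∪ M) := by
        have h10 := conn_ext h7 (subset_insert y M) subset_union_right
        rwa [union_eq_left.2 h8] at h10
      obtain ⟨S', hS', hs⟩ := q2 _ h8 h6 h5 h9
      exact ⟨S', mem_union_right _ hS', subset_union_left.trans hs⟩
    · have h8 := hyS (S ∪ M) subset_union_right hy
      have h9 : e ∈ bd G H (S ∪ M) := mem_bd.2 ⟨(mem_bd.1 he).1, h8⟩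
      obtain ⟨S', hS', hs⟩ := q1 _ subset_union_right h6 (by
        rw [bd_erase, card_erase_of_mem h9]; omega) (conn_erase h7 h8)
      exact ⟨S', mem_union_left _ hS', subset_union_left.trans hs⟩

/-- Few terminals own a small connected cut containing `X`. -/
theorem isolated (G : MG V E) (R : Finset V) : ∀ (n : ℕ) (H : Finset E) (X : Finset V) (k l : ℕ)
    (I : Finset V) (S : V → Finset V),
    (∀ S, X ⊆ S → Disjoint S R → l ≤ (bd G H S).card) → 2 * k + 1 ≤ n + l → I ⊆ R →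
    (∀ i ∈ I, X ⊆ S i ∧ i ∈ S i ∧ (∀ j ∈ R, j ∈ S i → j = i) ∧ (bd G H (S i)).card ≤ k ∧
      Conn G H X (S i)) → I.card ≤ 2 ^ n := by
  intro n
  induction n using Nat.strong_induction_on with
  | _ n ih =>
  intro H X k l I S hl hk hIR hI
  by_cases hone : I.card ≤ 1
  · exact hone.trans Nat.one_le_two_pow
  obtain ⟨i, hi, j, hj, hij⟩ := one_lt_card.1 (by omega : 1 < I.card)
  have hdis : ∀ i ∈ I, ∀ j ∈ I, i ≠ j → Disjoint (S i ∩ S j) R := by
    intro i hi j hj hij
    rw [disjoint_left]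
    intro v hv hvR
    rw [mem_inter] at hv
    exact hij (((hI i hi).2.2.1 v hvR hv.1).symm.trans ((hI j hj).2.2.1 v hvR hv.2))
  obtain ⟨M, ⟨hM1, hM2⟩, hM3, hM4⟩ := exists_best (fun S => X ⊆ S ∧ Disjoint S R)
    ⟨S i ∩ S j, subset_inter (hI i hi).1 (hI j hj).1, hdis i hi j hj hij⟩
    (fun S => (bd G H S).card)
  have hMk : (bd G H M).card ≤ 2 * k := by
    have h1 := hM3 (S i ∩ S j) ⟨subset_inter (hI i hi).1 (hI j hj).1, hdis i hi j hj hij⟩
    have h2 := submod G H (S i) (S j)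
    have h3 := (hI i hi).2.2.2.1
    have h4 := (hI j hj).2.2.2.1
    omega
  have hz : bd G H M ≠ ∅ := by
    intro hz
    have h1 := conn_sub (hI i hi).2.2.2.2 (hI i hi).1 hM1 hz
    exact (disjoint_left.1 hM2) (h1 (hI i hi).2.1) (hIR hi)
  obtain ⟨e, he⟩ := nonempty_iff_ne_empty.2 hz
  have hlM := hl M hM1 hM2
  have hpos : 0 < (bd G H M).card := card_pos.2 ⟨e, he⟩
  obtain ⟨y, hyM, hyS⟩ : ∃ y, y ∉ M ∧ ∀ S', M ⊆ S' → y ∉ S' → Cr G S' e := by
    have h1 := (mem_bd.1 he).2
    unfold Cr at h1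
    by_cases h2 : G.a e ∈ M
    · have h3 : G.b e ∉ M := fun h3 => h1 ⟨fun _ => h3, fun _ => h2⟩
      exact ⟨G.b e, h3, fun S' hS' hb hc => hb (hc.1 (hS' h2))⟩
    · have h3 : G.b e ∈ M := by
        by_contra h3
        exact h1 ⟨fun h => absurd h h2, fun h => absurd h h3⟩
      exact ⟨G.a e, h2, fun S' hS' ha hc => ha (hc.2 (hS' h3))⟩
  obtain ⟨m, rfl⟩ : ∃ m, n = m + 1 := ⟨n - 1, by omega⟩
  have hbd : ∀ i ∈ I, (bd G H (S i ∪ M)).card ≤ k := by
    intro i hi
    have h6 := submod G H (S i) M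
    have h7 := hM3 (S i ∩ M) ⟨subset_inter (hI i hi).1 hM1,
      disjoint_of_subset_left inter_subset_right hM2⟩
    have h8 := (hI i hi).2.2.2.1
    omega
  have hR : ∀ i ∈ I, ∀ j ∈ R, j ∈ S i ∪ M → j = i := by
    intro i hi j hj hji
    rcases mem_union.1 hji with h | h
    · exact (hI i hi).2.2.1 j hj h
    · exact absurd hj (disjoint_left.1 hM2 h)
  have hconn : ∀ i ∈ I, Conn G H M (S i ∪ M) := fun i hi =>
    conn_ext (hI i hi).2.2.2.2 hM1 (hI i hi).1
  have h1 := ih m (by omega) (H.erase e) M (k - 1) ((bd G H M).card - 1)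
    (I.filter (fun i => y ∉ S i ∪ M)) (fun i => S i ∪ M) (by
      intro S h1 h2
      rw [bd_erase]
      have h3 := hM3 S ⟨hM1.trans h1, h2⟩
      have h4 := pred_card_le_card_erase (s := bd G H S) (a := e)
      omega) 
  have h2 := ih m (by omega) H (insert y M) k ((bd G H M).card + 1)
    (I.filter (fun i => y ∈ S i ∪ M)) (fun i => S i ∪ M) (by
      intro S h1 h2
      have h3 := hM3 S ⟨(hM1.trans (subset_insert _ _)).trans h1, h2⟩
      by_contra h4
      have h5 := hM4 S ⟨(hM1.trans (subset_insert _ _)).trans h1, h2⟩ (by omega)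
      have h6 : M ⊂ S := by
        refine ⟨(subset_insert _ _).trans h1, fun h7 => hyM (h7 (h1 (mem_insert_self _ _)))⟩
      exact absurd (card_lt_card h6) (by omega)) (by omega) ((filter_subset _ _).trans hIR) (by
      intro i hi
      rw [mem_filter] at hi
      have h8 : insert y M ⊆ S i ∪ M := insert_subset hi.2 subset_union_right
      refine ⟨h8, mem_union_left _ (hI i hi.1).2.1, hR i hi.1, hbd i hi.1, ?_⟩
      have h10 := conn_ext (hconn i hi.1) (subset_insert y M) subset_union_right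
      rwa [union_eq_left.2 h8] at h10)
  have h3 : (I.filter (fun i => y ∉ S i ∪ M)).card ≤ 2 ^ m := by
    by_cases hemp : I.filter (fun i => y ∉ S i ∪ M) = ∅
    · rw [hemp]; simp
    obtain ⟨i0, hi0⟩ := nonempty_iff_ne_empty.2 hemp
    rw [mem_filter] at hi0
    have h9 : e ∈ bd G H (S i0 ∪ M) := mem_bd.2 ⟨(mem_bd.1 he).1, hyS _ subset_union_right hi0.2⟩
    have hk1 : 0 < k := (card_pos.2 ⟨e, h9⟩).trans_le (hbd i0 hi0.1)
    refine h1 (by omega) ((filter_subset _ _).trans hIR) ?_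
    intro i hi
    rw [mem_filter] at hi
    have h8 := hyS (S i ∪ M) subset_union_right hi.2
    have h9 : e ∈ bd G H (S i ∪ M) := mem_bd.2 ⟨(mem_bd.1 he).1, h8⟩
    have h10 := hbd i hi.1
    refine ⟨subset_union_right, mem_union_left _ (hI i hi.1).2.1, hR i hi.1, ?_,
      conn_erase (hconn i hi.1) h8⟩
    rw [bd_erase, card_erase_of_mem h9]
    omega
  have h4 := card_filter_add_card_filter_not (s := I) (fun i => y ∈ S i ∪ M)
  rw [pow_succ]
  omega

end R550.FX
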