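import Pool.Agent.R550.FX.Core

/-! Cost sharing for flexible connectivity to the other terminals. -/

namespace R550.FX

open Finset

set_option linter.unusedSectionVars false

variable {V E : Type} [Fintype V] [DecidableEq V] [Fintype E] [DecidableEq E]

/-- At least `p` safe edges or at least `p + q` edges. -/
def Sat (safe : Finset E) (p q : ℕ) (A : Finset E) : Prop :=
  p ≤ (A ∩ safe).card ∨ p + q ≤ A.card

theorem Sat.mono {safe : Finset E} {p q : ℕ} {A B : Finset E} (h : Sat safe p q A) (hAB : A ⊆ B) :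
    Sat safe p q B := by
  rcases h with h | h
  · exact Or.inl (h.trans (card_le_card (inter_subset_inter_right hAB)))
  · exact Or.inr (h.trans (card_le_card hAB))

/-- Every cut around `t` without other vertices of `R` is satisfied. -/
def Feas (G : MG V E) (safe : Finset E) (p q : ℕ) (R : Finset V) (t : V) (X : Finset E) : Prop :=
  ∀ S : Finset V, t ∈ S → (∀ j ∈ R, j ∈ S → j = t) → Sat safe p q (bd G X S)

theorem Feas.mono {G : MG V E} {safe : Finset E} {p q : ℕ} {R : Finset V} {t : V} {X Y : Finset E}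
    (h : Feas G safe p q R t X) (hXY : X ⊆ Y) : Feas G safe p q R t Y :=
  fun S h1 h2 => (h S h1 h2).mono (bd_mono hXY S)

theorem viol {G : MG V E} {safe : Finset E} {p q : ℕ} {R : Finset V} {t : V} {X : Finset E}
    (h : ¬ Feas G safe p q R t X) : ∃ S : Finset V, t ∈ S ∧ (∀ j ∈ R, j ∈ S → j = t) ∧
      ¬ Sat safe p q (bd G X S) ∧ Conn G X {t} S := by
  classical
  have h1 : ∃ S : Finset V, t ∈ S ∧ (∀ j ∈ R, j ∈ S → j = t) ∧ ¬ Sat safe p q (bd G X S) := by
    unfold Feas at h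
    push Not at h
    exact h
  obtain ⟨S0, hS0⟩ := h1
  obtain ⟨S, hS, hm⟩ := exists_min_image
    (univ.filter (fun S : Finset V => t ∈ S ∧ (∀ j ∈ R, j ∈ S → j = t) ∧ ¬ Sat safe p q (bd G X S)))
    (fun S => S.card) ⟨S0, by simpa using hS0⟩
  simp only [mem_filter, mem_univ, true_and] at hS hm
  refine ⟨S, hS.1, hS.2.1, hS.2.2, ?_⟩
  intro Q h1 h2 h3
  by_contra hn
  push Not at hn
  have h4 : bd G X Q ⊆ bd G X S := by
    intro g hg
    rw [mem_bd] at hg ⊢
    refine ⟨hg.1, ?_⟩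
    have h5 := hn g hg.1
    have h6 := hg.2
    unfold Cr at h6 ⊢
    by_cases ha : G.a g ∈ Q
    · have hb : G.b g ∉ Q := fun hb => h6 ⟨fun _ => hb, fun _ => ha⟩
      intro hc
      exact hb (h5.1 ha (hc.1 (h2 ha)))
    · have hb : G.b g ∈ Q := by
        by_contra hb
        exact h6 ⟨fun h => absurd h ha, fun h => absurd h hb⟩
      intro hc
      exact ha (h5.2 hb (hc.2 (h2 hb)))
  have h5 := hm Q ⟨h1 (mem_singleton_self _), fun j hj hjQ => hS.2.1 j hj (h2 hjQ),
    fun h6 => hS.2.2 (h6.mono h4)⟩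
  exact absurd (card_lt_card (h2.ssubset_of_ne h3)) (by omega)

theorem crit {G : MG V E} {safe : Finset E} {p q : ℕ} {R : Finset V} {t : V} {X : Finset E}
    (h : Feas G safe p q R t X) (E0 : Finset E) : ∃ Y : Finset E, E0 ⊆ Y ∧ Y ⊆ X ∪ E0 ∧
      Feas G safe p q R t Y ∧ ∀ f ∈ Y, f ∉ E0 → ¬ Feas G safe p q R t (Y.erase f) := by
  classical
  obtain ⟨Y, hY, hm⟩ := exists_min_image
    (univ.filter (fun Y : Finset E => E0 ⊆ Y ∧ Y ⊆ X ∪ E0 ∧ Feas G safe p q R t Y))
    (fun S => S.card) ⟨X ∪ E0, by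
      simp only [mem_filter, mem_univ, true_and]
      exact ⟨subset_union_right, Subset.refl _, h.mono subset_union_left⟩⟩
  simp only [mem_filter, mem_univ, true_and] at hY hm
  refine ⟨Y, hY.1, hY.2.1, hY.2.2, ?_⟩
  intro f hf hf0 h1
  have h2 := hm (Y.erase f) ⟨fun e he => mem_erase.2 ⟨fun h => hf0 (h ▸ he), hY.1 he⟩,
    (erase_subset _ _).trans hY.2.1, h1⟩
  have h3 := card_erase_lt_of_mem hf
  omega

theorem crit_cut {G : MG V E} {safe : Finset E} {p q : ℕ} {R : Finset V} {t : V} {Y : Finset E}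
    (h : Feas G safe p q R t Y) {f : E} (h1 : ¬ Feas G safe p q R t (Y.erase f)) :
    ∃ S : Finset V, t ∈ S ∧ (∀ j ∈ R, j ∈ S → j = t) ∧ Cr G S f ∧ (bd G Y S).card ≤ p + q ∧
      Conn G Y {t} S := by
  obtain ⟨S, h2, h3, h4, h5⟩ := viol h1
  refine ⟨S, h2, h3, ?_, ?_, ?_⟩
  · by_contra h6
    apply h4
    rw [bd_erase, erase_eq_of_notMem (fun h7 => h6 (mem_bd.1 h7).2)]
    exact h S h2 h3
  · have h6 : ¬ p + q ≤ (bd G (Y.erase f) S).card := fun h7 => h4 (Or.inr h7)
    rw [bd_erase] at h6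
    have h7 := pred_card_le_card_erase (s := bd G Y S) (a := f)
    omega
  · intro Q h6 h7 h8
    obtain ⟨g, hg, h9⟩ := h5 Q h6 h7 h8
    exact ⟨g, (mem_erase.1 hg).2, h9⟩

/-- The constant. -/
def KK (p q : ℕ) : ℕ := 2 ^ (2 * (p + q)) * ((p + q) * (2 * 2 ^ (2 * (p + q) + 1))) + 1

theorem key (G : MG V E) (safe : Finset E) (p q : ℕ) (R : Finset V) (E0 : Finset E)
    (T1 : Finset V) (hT1 : T1 ⊆ R) (S : V → Finset V) (ev : V → E)
    (hS : ∀ i ∈ T1, i ∈ S i ∧ (∀ j ∈ R, j ∈ S i → j = i) ∧ ¬ Sat safe p q (bd G E0 (S i)) ∧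
      Conn G E0 {i} (S i))
    (hev : ∀ i ∈ T1, Cr G (S i) (ev i) ∧ ev i ∉ E0)
    (t : V) (Y : Finset E) (h0 : E0 ⊆ Y) (hf : Feas G safe p q R t Y)
    (hc : ∀ f ∈ Y, f ∉ E0 → ¬ Feas G safe p q R t (Y.erase f)) :
    (T1.filter (fun i => ev i ∈ Y)).card ≤ KK p q := by
  obtain ⟨I, c1, c2, c3⟩ := important G (R.erase t) (2 * (p + q)) Y {t} (p + q) 0
    (fun _ _ _ => Nat.zero_le _) (by omega)
  have hN : ∀ x : V, (T1.filter (fun i => x ∈ S i)).card ≤ 2 ^ (2 * (p + q) + 1) := by
    intro x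
    refine isolated G R (2 * (p + q) + 1) E0 {x} (p + q - 1) 0 _ S (fun _ _ _ => Nat.zero_le _)
      (by omega) ((filter_subset _ _).trans hT1) ?_
    intro i hi
    rw [mem_filter] at hi
    obtain ⟨h1, h2, h3, h4⟩ := hS i hi.1
    refine ⟨singleton_subset_iff.2 hi.2, h1, h2, ?_, ?_⟩
    · have h5 : ¬ p + q ≤ (bd G E0 (S i)).card := fun h6 => h3 (Or.inr h6)
      omega
    · intro Q h5 h6 h7
      by_cases h8 : i ∈ Q
      · exact h4 Q (singleton_subset_iff.2 h8) h6 h7
      · have h9 : S i \ Q ≠ S i := by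
          intro h9
          have h10 : x ∈ S i \ Q := by rw [h9]; exact hi.2
          exact (mem_sdiff.1 h10).2 (h5 (mem_singleton_self _))
        obtain ⟨g, hg, h10⟩ := h4 (S i \ Q) (singleton_subset_iff.2 (mem_sdiff.2 ⟨h1, h8⟩))
          sdiff_subset h9
        refine ⟨g, hg, ?_⟩
        simp only [mem_sdiff, not_and, not_not] at h10
        rcases h10 with ⟨⟨h11, h12⟩, h13, h14⟩ | ⟨⟨h11, h12⟩, h13, h14⟩
        · exact Or.inr ⟨h14 h13, h11, h12⟩
        · exact Or.inl ⟨h14 h13, h11, h12⟩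
  have hsub : T1.filter (fun i => ev i ∈ Y) ⊆ insert t (I.biUnion (fun S' =>
      (bd G Y S').biUnion (fun g => T1.filter (fun i => G.a g ∈ S i) ∪
        T1.filter (fun i => G.b g ∈ S i)))) := by
    intro i hi
    rw [mem_filter] at hi
    rw [mem_insert]
    by_cases hit : i = t
    · exact Or.inl hit
    right
    obtain ⟨S1, h1, h2, h3, h4, h5⟩ := crit_cut hf (hc (ev i) hi.2 (hev i hi.1).2)
    obtain ⟨S', hS', h6⟩ := c3 S1 (singleton_subset_iff.2 h1) (by
      rw [disjoint_left]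
      intro v hv hvR
      rw [mem_erase] at hvR
      exact hvR.1 (h2 v hvR.2 hv)) h4 h5
    obtain ⟨h7, -⟩ := c2 S' hS'
    have hiS' : i ∉ S' := by
      intro h8
      exact disjoint_left.1 h7 h8 (mem_erase.2 ⟨hit, hT1 hi.1⟩)
    have hg : ∃ g ∈ bd G Y S', G.a g ∈ S i ∨ G.b g ∈ S i := by
      have h8 := (hev i hi.1).1
      by_cases h9 : Cr G S' (ev i)
      · refine ⟨ev i, mem_bd.2 ⟨hi.2, h9⟩, ?_⟩
        unfold Cr at h8
        by_contra h10
        push Not at h10
        exact h8 ⟨fun h => absurd h h10.1, fun h => absurd h h10.2⟩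
      · -- both endpoints in S'
        have h10 : G.a (ev i) ∈ S' ∧ G.b (ev i) ∈ S' := by
          unfold Cr at h3 h9
          by_cases ha : G.a (ev i) ∈ S1
          · have := h6 ha; tauto
          · have hb : G.b (ev i) ∈ S1 := by
              by_contra hb
              exact h3 ⟨fun h => absurd h ha, fun h => absurd h hb⟩
            have := h6 hb
            tauto
        obtain ⟨x, hx1, hx2⟩ : ∃ x, x ∈ S i ∧ x ∈ S' := by
          unfold Cr at h8
          by_cases ha : G.a (ev i) ∈ S i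
          · exact ⟨_, ha, h10.1⟩
          · refine ⟨G.b (ev i), ?_, h10.2⟩
            by_contra hb
            exact h8 ⟨fun h => absurd h ha, fun h => absurd h hb⟩
        obtain ⟨h11, h12, h13, h14⟩ := hS i hi.1
        obtain ⟨g, hg, h15⟩ := h14 (S i \ S') (singleton_subset_iff.2 (mem_sdiff.2 ⟨h11, hiS'⟩))
          sdiff_subset (by
            intro h15
            rw [← h15] at hx1
            exact (mem_sdiff.1 hx1).2 hx2)
        refine ⟨g, mem_bd.2 ⟨h0 hg, ?_⟩, ?_⟩
        · unfold Cr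
          simp only [mem_sdiff] at h15
          tauto
        · simp only [mem_sdiff] at h15
          tauto
    obtain ⟨g, hg, h8⟩ := hg
    refine mem_biUnion.2 ⟨S', hS', mem_biUnion.2 ⟨g, hg, ?_⟩⟩
    rw [mem_union, mem_filter, mem_filter]
    rcases h8 with h8 | h8
    · exact Or.inl ⟨hi.1, h8⟩
    · exact Or.inr ⟨hi.1, h8⟩
  refine (card_le_card hsub).trans ((card_insert_le _ _).trans ?_)
  unfold KK
  apply Nat.succ_le_succ
  refine (card_biUnion_le_card_mul _ _ ((p + q) * (2 * 2 ^ (2 * (p + q) + 1))) ?_).trans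
    (Nat.mul_le_mul_right _ c1)
  intro S' hS'
  refine (card_biUnion_le_card_mul _ _ (2 * 2 ^ (2 * (p + q) + 1)) ?_).trans
    (Nat.mul_le_mul_right _ (c2 S' hS').2)
  intro g _
  refine (card_union_le _ _).trans ?_
  have h1 := hN (G.a g)
  have h2 := hN (G.b g)
  omega

theorem main (G : MG V E) (safe : Finset E) (p q : ℕ) (R : Finset V) (A : Finset E)
    (T : Finset V) (hTR : T ⊆ R) (hA : ∀ t ∈ T, Feas G safe p q R t A) :
    ∀ (n : ℕ) (c : E → ℝ), (∀ e, 0 ≤ c e) → (A.filter (fun e => c e ≠ 0)).card ≤ n →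
      ∃ X : V → Finset E, (∀ t ∈ T, X t ⊆ A ∧ Feas G safe p q R t (X t)) ∧
        ∑ t ∈ T, ∑ e ∈ X t, c e ≤ (KK p q : ℝ) * ∑ e ∈ A, c e := by
  classical
  intro n
  induction n with
  | zero =>
    intro c hc hcard
    refine ⟨fun _ => A, fun t ht => ⟨Subset.refl _, hA t ht⟩, ?_⟩
    have h1 : ∀ e ∈ A, c e = 0 := by
      intro e he
      by_contra h
      have : e ∈ A.filter (fun e => c e ≠ 0) := mem_filter.2 ⟨he, h⟩
      rw [card_eq_zero.1 (Nat.le_zero.1 hcard)] at this
      exact absurd this (notMem_empty _)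
    simp only [sum_eq_zero h1]
    simp
  | succ n ih =>
    intro c hc hcard
    set E0 := A.filter (fun e => c e = 0) with hE0
    set T1 := T.filter (fun t => ¬ Feas G safe p q R t E0) with hT1
    by_cases hemp : T1 = ∅
    · refine ⟨fun _ => E0, fun t ht => ⟨filter_subset _ _, ?_⟩, ?_⟩
      · by_contra h
        have : t ∈ T1 := mem_filter.2 ⟨ht, h⟩
        rw [hemp] at this
        exact absurd this (notMem_empty _)
      · have h1 : ∑ e ∈ E0, c e = 0 := sum_eq_zero (fun e he => (mem_filter.1 he).2)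
        simp only [h1, sum_const_zero]
        exact mul_nonneg (Nat.cast_nonneg _) (sum_nonneg (fun e _ => hc e))
    have hne : T1.Nonempty := nonempty_iff_ne_empty.2 hemp
    -- the violated cuts and the chosen edges
    have hch : ∀ t, ∃ (S : Finset V) (f : E), t ∈ T1 → (t ∈ S ∧ (∀ j ∈ R, j ∈ S → j = t) ∧
        ¬ Sat safe p q (bd G E0 S) ∧ Conn G E0 {t} S) ∧ (Cr G S f ∧ f ∉ E0) ∧ f ∈ A := by
      intro t
      by_cases ht : t ∈ T1
      · obtain ⟨h1, h2⟩ := mem_filter.1 ht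
        obtain ⟨S, h3, h4, h5, h6⟩ := viol h2
        have h7 := hA t h1 S h3 h4
        have h8 : ¬ bd G A S ⊆ bd G E0 S := fun h8 => h5 (h7.mono h8)
        rw [not_subset] at h8
        obtain ⟨f, hf, hf0⟩ := h8
        rw [mem_bd] at hf
        refine ⟨S, f, fun _ => ⟨⟨h3, h4, h5, h6⟩, ⟨hf.2, fun h9 => hf0 (mem_bd.2 ⟨h9, hf.2⟩)⟩, hf.1⟩⟩
      · obtain ⟨t0, ht0⟩ := hne
        obtain ⟨h1, h2⟩ := mem_filter.1 ht0
        obtain ⟨S, h3, h4, h5, h6⟩ := viol h2
        have h7 := hA t0 h1 S h3 h4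
        have h8 : ¬ bd G A S ⊆ bd G E0 S := fun h8 => h5 (h7.mono h8)
        rw [not_subset] at h8
        obtain ⟨f, hf, hf0⟩ := h8
        exact ⟨S, f, fun h => absurd h ht⟩
    choose S ev hSev using hch
    have hc0 : ∀ t ∈ T1, 0 < c (ev t) := by
      intro t ht
      obtain ⟨-, ⟨-, h1⟩, h2⟩ := hSev t ht
      rcases (hc (ev t)).lt_or_eq with h3 | h3
      · exact h3
      · exact absurd (mem_filter.2 ⟨h2, h3.symm⟩) h1
    set w : E → ℕ := fun e => (T1.filter (fun t => ev t = e)).card with hw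
    have hwpos : ∀ t ∈ T1, 0 < w (ev t) := by
      intro t ht
      exact card_pos.2 ⟨t, mem_filter.2 ⟨ht, rfl⟩⟩
    obtain ⟨t0, ht0, hmin⟩ := exists_min_image T1 (fun t => c (ev t) / (w (ev t) : ℝ)) hne
    set ε : ℝ := c (ev t0) / (w (ev t0) : ℝ) with hε
    have hw0 : (0 : ℝ) < (w (ev t0) : ℝ) := by exact_mod_cast hwpos t0 ht0
    have hεpos : 0 < ε := div_pos (hc0 t0 ht0) hw0
    set c' : E → ℝ := fun e => c e - ε * (w e : ℝ) with hc'
    have hc'0 : ∀ e, 0 ≤ c' e := by
      intro e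
      by_cases hwe : w e = 0
      · simp only [hc', hwe]; simpa using hc e
      · obtain ⟨t, ht'⟩ := card_pos.1 (Nat.pos_of_ne_zero hwe)
        obtain ⟨ht, rfl⟩ := mem_filter.1 ht'
        have h1 : ε ≤ c (ev t) / (w (ev t) : ℝ) := hmin t ht
        have h2 : (0 : ℝ) < (w (ev t) : ℝ) := by exact_mod_cast hwpos t ht
        simp only [hc']
        rw [le_div_iff₀ h2] at h1
        linarith
    have hcard' : (A.filter (fun e => c' e ≠ 0)).card ≤ n := by
      have h1 : A.filter (fun e => c' e ≠ 0) ⊆ (A.filter (fun e => c e ≠ 0)).erase (ev t0) := by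
        intro e he
        obtain ⟨he, hne'⟩ := mem_filter.1 he
        rw [mem_erase, mem_filter]
        refine ⟨?_, he, ?_⟩
        · rintro rfl
          apply hne'
          simp only [hc', hε]
          field_simp
          ring
        · intro h2
          apply hne'
          have h3 : w e = 0 := by
            by_contra h3
            obtain ⟨t, ht'⟩ := card_pos.1 (Nat.pos_of_ne_zero h3)
            obtain ⟨ht, rfl⟩ := mem_filter.1 ht'
            exact absurd h2 (hc0 t ht).ne'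
          simp only [hc', h2, h3]
          simp
      have h2 := card_le_card h1
      have h3 : ev t0 ∈ A.filter (fun e => c e ≠ 0) :=
        mem_filter.2 ⟨(hSev t0 ht0).2.2, (hc0 t0 ht0).ne'⟩
      rw [card_erase_of_mem h3] at h2
      omega
    obtain ⟨X', hX', hsum⟩ := ih c' hc'0 hcard'
    have hY : ∀ t, ∃ Y : Finset E, t ∈ T → E0 ⊆ Y ∧ Y ⊆ X' t ∪ E0 ∧
      Feas G safe p q R t Y ∧ ∀ f ∈ Y, f ∉ E0 → ¬ Feas G safe p q R t (Y.erase f) := by
      intro t
      by_cases ht : t ∈ T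
      · obtain ⟨Y, h⟩ := crit (hX' t ht).2 E0
        exact ⟨Y, fun _ => h⟩
      · exact ⟨∅, fun h => absurd h ht⟩
    choose Y hY using hY
    have hwY : ∀ Z : Finset E, ∑ e ∈ Z, w e = (T1.filter (fun i => ev i ∈ Z)).card := by
      intro Z
      simp only [hw, card_eq_sum_ones, sum_filter]
      rw [sum_comm]
      apply sum_congr rfl
      intro t _
      rw [sum_ite_eq]
    refine ⟨Y, fun t ht => ⟨(hY t ht).2.1.trans (union_subset (hX' t ht).1 (filter_subset _ _)),
      (hY t ht).2.2.1⟩, ?_⟩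
    have hcY : ∀ Z : Finset E, ∑ e ∈ Z, c e = ∑ e ∈ Z, c' e + ε * ((∑ e ∈ Z, w e : ℕ) : ℝ) := by
      intro Z
      push_cast
      rw [mul_sum, ← sum_add_distrib]
      apply sum_congr rfl
      intro e _
      simp only [hc']
      ring
    have h1 : ∀ t ∈ T, ∑ e ∈ Y t, c' e ≤ ∑ e ∈ X' t, c' e := by
      intro t ht
      have hz : ∀ e ∈ E0, c' e = 0 := by
        intro e he
        obtain ⟨-, h2⟩ := mem_filter.1 he
        have h3 : w e = 0 := by
          by_contra h3
          obtain ⟨t, ht'⟩ := card_pos.1 (Nat.pos_of_ne_zero h3)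
          obtain ⟨ht, rfl⟩ := mem_filter.1 ht'
          exact absurd h2 (hc0 t ht).ne'
        simp only [hc', h2, h3]
        simp
      calc ∑ e ∈ Y t, c' e ≤ ∑ e ∈ X' t ∪ E0, c' e :=
            sum_le_sum_of_subset_of_nonneg (hY t ht).2.1 (fun e _ _ => hc'0 e)
        _ = ∑ e ∈ X' t, c' e := by
            symm
            apply sum_subset subset_union_left
            intro e he hne'
            rcases mem_union.1 he with h | h
            · exact absurd h hne'
            · exact hz e h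
    have h2 : ∀ t ∈ T, ((∑ e ∈ Y t, w e : ℕ) : ℝ) ≤ if t ∈ T1 then (KK p q : ℝ) else 0 := by
      intro t ht
      split_ifs with h3
      · rw [hwY]
        exact_mod_cast key G safe p q R E0 T1 ((filter_subset _ _).trans hTR) S ev
          (fun i hi => (hSev i hi).1) (fun i hi => (hSev i hi).2.1) t (Y t) (hY t ht).1
          (hY t ht).2.2.1 (hY t ht).2.2.2
      · have h4 : Feas G safe p q R t E0 := by
          by_contra h4
          exact h3 (mem_filter.2 ⟨ht, h4⟩)
        have h5 : Y t ⊆ E0 := by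
          intro f hf
          by_contra hf0
          exact (hY t ht).2.2.2 f hf hf0 (h4.mono (fun e he =>
            mem_erase.2 ⟨fun h => hf0 (h ▸ he), (hY t ht).1 he⟩))
        rw [hwY]
        have h6 : T1.filter (fun i => ev i ∈ Y t) = ∅ := by
          rw [filter_eq_empty_iff]
          intro i hi h7
          exact (hSev i hi).2.1.2 (h5 h7)
        rw [h6]
        simp
    have h3 : ∑ t ∈ T, (if t ∈ T1 then (KK p q : ℝ) else 0) = (T1.card : ℝ) * KK p q := by
      rw [← sum_filter]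
      have h4 : T.filter (fun t => t ∈ T1) = T1 := by
        ext t
        simp only [mem_filter, hT1]
        tauto
      rw [h4, sum_const, nsmul_eq_mul]
    have h4 : (∑ e ∈ A, w e) = T1.card := by
      rw [hwY]
      congr 1
      apply filter_true_of_mem
      intro i hi
      exact (hSev i hi).2.2
    calc ∑ t ∈ T, ∑ e ∈ Y t, c e
        = ∑ t ∈ T, (∑ e ∈ Y t, c' e + ε * ((∑ e ∈ Y t, w e : ℕ) : ℝ)) :=
          sum_congr rfl (fun t _ => hcY _)
      _ ≤ ∑ t ∈ T, (∑ e ∈ X' t, c' e + ε * (if t ∈ T1 then (KK p q : ℝ) else 0)) := by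
          apply sum_le_sum
          intro t ht
          exact add_le_add (h1 t ht) (mul_le_mul_of_nonneg_left (h2 t ht) hεpos.le)
      _ = ∑ t ∈ T, ∑ e ∈ X' t, c' e + ε * ((T1.card : ℝ) * KK p q) := by
          rw [sum_add_distrib, ← mul_sum, h3]
      _ ≤ (KK p q : ℝ) * ∑ e ∈ A, c' e + ε * ((T1.card : ℝ) * KK p q) := by linarith
      _ = (KK p q : ℝ) * ∑ e ∈ A, c e := by
          rw [hcY A, h4]
          ring

end R550.FX
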